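import Pool.Agent.Lib.MP_2f7009_an.Simons

set_option autoImplicit false

namespace Pool.Agent.Lib.MP_2f7009_an

open Metric Set Filter Topology

variable {X : Type*} [NormedAddCommGroup X] [NormedSpace ℝ X]

/-- `PP A n d x`: the set of norming functionals of `x` meets the `d`-enlargement of the
weak-star closed convex hull of `A n` (in a form that only uses the norm). -/
def PP (A : ℕ → Set (X →L[ℝ] ℝ)) (n : ℕ) (d : ℝ) (x : X) : Prop :=
  ∀ v : X, ∀ ε : ℝ, 0 < ε → ∃ a ∈ A n, ‖x‖ ≤ ‖x - v‖ + a v + d * ‖v‖ + ε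

theorem gain [CompleteSpace X] (A : ℕ → Set (X →L[ℝ] ℝ)) (hA : Monotone A) (q : X) (ρ : ℝ)
    (hρ : 0 < ρ) (ξ : X →L[ℝ] ℝ) (hξ : ‖ξ‖ ≤ 1) (d d'' : ℝ) (hd'' : 0 ≤ d'')
    (hu : ∀ n, ∃ u : X, ‖u‖ ≤ 1 ∧ ∀ a ∈ A n, a u + d ≤ ξ u)
    (hP : ∀ w : X, ‖w‖ ≤ 1 → ∃ n, PP A n d'' (q + ρ • w)) :
    ξ q + ρ * (d - d'') ≤ ‖q‖ := by
  have hξle : ∀ v : X, ξ v ≤ ‖v‖ := by
    intro v
    have h1 := ξ.le_opNorm v
    have h2 : ‖ξ‖ * ‖v‖ ≤ 1 * ‖v‖ := mul_le_mul_of_nonneg_right hξ (norm_nonneg v)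
    have h3 : ξ v ≤ ‖ξ v‖ := le_abs_self _
    linarith
  have hξabs : ∀ v : X, |ξ v| ≤ ‖v‖ := by
    intro v
    have h1 := ξ.le_opNorm v
    have h2 : ‖ξ‖ * ‖v‖ ≤ 1 * ‖v‖ := mul_le_mul_of_nonneg_right hξ (norm_nonneg v)
    have h3 : |ξ v| = ‖ξ v‖ := rfl
    linarith
  choose u hu1 hu2 using hu
  -- cluster value
  have hmem : ∀ n, ξ (u n) ∈ Icc (-1:ℝ) 1 := by
    intro n
    have h1 := abs_le.mp (hξabs (u n))
    exact ⟨by linarith [h1.1, hu1 n], by linarith [h1.2, hu1 n]⟩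
  obtain ⟨c, -, φ, hφ, hlim⟩ := isCompact_Icc.tendsto_subseq hmem
  -- main estimate
  have key : ∀ θ : ℝ, 0 < θ → ξ q + ρ * (d - d'') ≤ ‖q‖ + (2 * ρ + 1) * θ := by
    intro θ hθ
    let V : ℕ → Set X := fun n => {w | ‖w‖ ≤ 1 ∧ c - θ ≤ ξ w ∧ ∀ a ∈ A n, a w ≤ c + θ - d}
    have hVanti : Antitone V := by
      intro n k hnk w hw
      exact ⟨hw.1, hw.2.1, fun a ha => hw.2.2 a (hA hnk ha)⟩
    have hVconv : ∀ n, Convex ℝ (V n) := by
      intro n w hw w' hw' s t hs ht hst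
      refine ⟨?_, ?_, ?_⟩
      · refine (norm_add_le _ _).trans ?_
        rw [norm_smul, norm_smul, Real.norm_of_nonneg hs, Real.norm_of_nonneg ht]
        have h1 := mul_le_mul_of_nonneg_left hw.1 hs
        have h2 := mul_le_mul_of_nonneg_left hw'.1 ht
        linarith
      · rw [map_add, map_smul, map_smul, smul_eq_mul, smul_eq_mul]
        have h1 := mul_le_mul_of_nonneg_left hw.2.1 hs
        have h2 := mul_le_mul_of_nonneg_left hw'.2.1 ht
        have h3 : s * (c - θ) + t * (c - θ) = c - θ := by rw [← add_mul, hst, one_mul]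
        linarith
      · intro a ha
        rw [map_add, map_smul, map_smul, smul_eq_mul, smul_eq_mul]
        have h1 := mul_le_mul_of_nonneg_left (hw.2.2 a ha) hs
        have h2 := mul_le_mul_of_nonneg_left (hw'.2.2 a ha) ht
        have h3 : s * (c + θ - d) + t * (c + θ - d) = c + θ - d := by
          rw [← add_mul, hst, one_mul]
        linarith
    have hVne : ∀ n, (V n).Nonempty := by
      intro n
      have h1 : ∀ᶠ k in atTop, dist (ξ (u (φ k))) c < θ := (Metric.tendsto_nhds.mp hlim) θ hθ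
      obtain ⟨k, hk1, hk2⟩ := (h1.and (eventually_ge_atTop n)).exists
      rw [Real.dist_eq, abs_lt] at hk1
      refine ⟨u (φ k), hu1 _, by linarith [hk1.1], ?_⟩
      intro a ha
      have h2 : a ∈ A (φ k) := hA (hk2.trans (hφ.id_le k)) ha
      have h3 := hu2 (φ k) a h2
      linarith [hk1.2]
    let C : ℕ → Set X := fun n => (fun w => q + ρ • w) '' V n
    have hCanti : Antitone C := fun n k hnk => image_mono (hVanti hnk)
    have hCconv : ∀ n, Convex ℝ (C n) := by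
      rintro n _ ⟨w, hw, rfl⟩ _ ⟨w', hw', rfl⟩ s t hs ht hst
      refine ⟨s • w + t • w', hVconv n hw hw' hs ht hst, ?_⟩
      have : q = (s + t) • q := by rw [hst, one_smul]
      calc q + ρ • (s • w + t • w') = (s + t) • q + ρ • (s • w + t • w') := by rw [← this]
        _ = s • (q + ρ • w) + t • (q + ρ • w') := by
          rw [add_smul, smul_add, smul_add, smul_add, smul_comm ρ s, smul_comm ρ t]
          abel
    have hCne : ∀ n, (C n).Nonempty := fun n => (hVne n).image _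
    have hCbd : ∀ z ∈ C 0, ‖z‖ ≤ ‖q‖ + ρ := by
      rintro _ ⟨w, hw, rfl⟩
      refine (norm_add_le _ _).trans ?_
      rw [norm_smul, Real.norm_of_nonneg hρ.le]
      have := mul_le_mul_of_nonneg_left hw.1 hρ.le
      linarith
    have hCm : ∀ z ∈ C 0, ξ q + ρ * (c - θ) ≤ ‖z‖ := by
      rintro _ ⟨w, hw, rfl⟩
      refine le_trans ?_ (hξle _)
      rw [map_add, map_smul, smul_eq_mul]
      have := mul_le_mul_of_nonneg_left hw.2.1 hρ.le
      linarith
    obtain ⟨z, hzC, hz⟩ := simons_core C hCanti hCconv hCne _ hCbd _ hCm θ hθ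
    choose w hwV hwz using hzC
    simp only at hwz
    have hwsum : Summable (fun k => ((1:ℝ)/2)^(k+1) • w k) :=
      summable_half w (R := 1) (fun n => (hwV n).1)
    have hzsum : Summable (fun k => ((1:ℝ)/2)^(k+1) • z k) :=
      summable_half z (R := ‖q‖ + ρ) (fun n => hCbd _ (hCanti (Nat.zero_le n) ⟨w n, hwV n, hwz n⟩))
    have hgeom : ∀ n : ℕ, HasSum (fun k : ℕ => ((1:ℝ)/2)^(n+k+1)) (((1:ℝ)/2)^n) := by
      intro n
      have h1 := hasSum_geometric_two.mul_left (((1:ℝ)/2)^(n+1))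
      have h2 : ((1:ℝ)/2)^(n+1) * 2 = ((1:ℝ)/2)^n := by ring
      rw [h2] at h1
      refine h1.congr_fun ?_ |> fun h => h
      intro k
      rw [← pow_add]; congr 1; ring
    -- the point
    set W : X := ∑' k, ((1:ℝ)/2)^(k+1) • w k with hW
    have hWnorm : ‖W‖ ≤ 1 := by
      have h1 := hgeom 0
      simp only [zero_add, pow_zero] at h1
      refine tsum_of_norm_bounded h1 ?_
      intro k
      rw [norm_smul, Real.norm_of_nonneg (by positivity)]
      have := mul_le_mul_of_nonneg_left (hwV k).1 (by positivity : (0:ℝ) ≤ (1/2)^(k+1))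
      linarith
    have hx : ∑' k, ((1:ℝ)/2)^(k+1) • z k = q + ρ • W := by
      have h1 := hgeom 0
      simp only [zero_add, pow_zero] at h1
      have h2 : HasSum (fun k : ℕ => ((1:ℝ)/2)^(k+1) • q) ((1:ℝ) • q) := h1.smul_const q
      have h3 : HasSum (fun k : ℕ => ρ • (((1:ℝ)/2)^(k+1) • w k)) (ρ • W) :=
        hwsum.hasSum.const_smul ρ
      have h4 := h2.add h3
      rw [one_smul] at h4
      rw [← h4.tsum_eq]
      congr 1
      ext k
      rw [← hwz k, smul_add, smul_comm ρ]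
    obtain ⟨N, hN⟩ := hP W hWnorm
    -- tail
    set tail : X := ∑' k, ((1:ℝ)/2)^(N+k+1) • w (N+k) with htail
    have htsum : Summable (fun k => ((1:ℝ)/2)^(N+k+1) • w (N+k)) := by
      have h1 := (summable_nat_add_iff N).mpr hwsum
      refine h1.congr ?_
      intro k
      rw [add_comm k N]
    have hsplit : W = ∑ k ∈ Finset.range N, ((1:ℝ)/2)^(k+1) • w k + tail := by
      rw [hW, ← hwsum.sum_add_tsum_nat_add N, htail]
      congr 1
      refine tsum_congr ?_
      intro k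
      rw [add_comm k N]
    have htnorm : ‖tail‖ ≤ ((1:ℝ)/2)^N := by
      refine tsum_of_norm_bounded (hgeom N) ?_
      intro k
      rw [norm_smul, Real.norm_of_nonneg (by positivity)]
      have := mul_le_mul_of_nonneg_left (hwV (N+k)).1 (by positivity : (0:ℝ) ≤ (1/2)^(N+k+1))
      linarith
    have hta : ∀ a ∈ A N, a tail ≤ ((1:ℝ)/2)^N * (c + θ - d) := by
      intro a ha
      have h1 : HasSum (fun k => a (((1:ℝ)/2)^(N+k+1) • w (N+k))) (a tail) :=
        a.hasSum htsum.hasSum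
      have h2 : HasSum (fun k => ((1:ℝ)/2)^(N+k+1) * (c + θ - d)) (((1:ℝ)/2)^N * (c + θ - d)) :=
        (hgeom N).mul_right _
      refine hasSum_le ?_ h1 h2
      intro k
      rw [map_smul, smul_eq_mul]
      have h3 : a ∈ A (N+k) := hA (Nat.le_add_right N k) ha
      exact mul_le_mul_of_nonneg_left ((hwV (N+k)).2.2 a h3) (by positivity)
    -- partial sums
    have hpart : ∑ k ∈ Finset.range N, ((1:ℝ)/2)^(k+1) • z k =
        (1 - ((1:ℝ)/2)^N) • q + ρ • ∑ k ∈ Finset.range N, ((1:ℝ)/2)^(k+1) • w k := by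
      have h1 : ∀ n : ℕ, ∑ k ∈ Finset.range n, ((1:ℝ)/2)^(k+1) = 1 - ((1:ℝ)/2)^n := by
        intro n
        induction n with
        | zero => simp
        | succ n ih => rw [Finset.sum_range_succ, ih]; ring
      rw [Finset.smul_sum, ← h1 N, Finset.sum_smul, ← Finset.sum_add_distrib]
      refine Finset.sum_congr rfl ?_
      intro k _
      rw [← hwz k, smul_add, smul_comm ρ]
    have hxv : q + ρ • W - ρ • tail =
        ∑ k ∈ Finset.range N, ((1:ℝ)/2)^(k+1) • z k + ((1:ℝ)/2)^N • q := by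
      rw [hpart, hsplit, smul_add, sub_smul, one_smul]
      abel
    have hxvn : ‖q + ρ • W - ρ • tail‖ ≤
        ‖∑ k ∈ Finset.range N, ((1:ℝ)/2)^(k+1) • z k‖ + ((1:ℝ)/2)^N * ‖q‖ := by
      rw [hxv]
      refine (norm_add_le _ _).trans ?_
      rw [norm_smul ((1/2:ℝ)^N) q, Real.norm_of_nonneg (by positivity)]
    have hz' := hz N
    rw [hx] at hz'
    have hfin : ∀ ε : ℝ, 0 < ε → ((1:ℝ)/2)^N * ((ξ q + ρ * (c - θ)) - θ) ≤
        ((1:ℝ)/2)^N * (‖q‖ + ρ * (c + θ - d) + d'' * ρ) + ε := by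
      intro ε hε
      obtain ⟨a, ha, hle⟩ := hN (ρ • tail) ε hε
      have h1 := hta a ha
      have h2 : a (ρ • tail) ≤ ρ * (((1:ℝ)/2)^N * (c + θ - d)) := by
        rw [map_smul, smul_eq_mul]
        exact mul_le_mul_of_nonneg_left h1 hρ.le
      have h3 : d'' * ‖ρ • tail‖ ≤ d'' * (ρ * ((1:ℝ)/2)^N) := by
        rw [norm_smul, Real.norm_of_nonneg hρ.le]
        exact mul_le_mul_of_nonneg_left (mul_le_mul_of_nonneg_left htnorm hρ.le) hd''
      nlinarith
    have hfin' := le_of_forall_pos_le_add hfin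
    have hpos : 0 < ((1:ℝ)/2)^N := by positivity
    have h7 := le_of_mul_le_mul_left hfin' hpos
    linarith
  have hlast : ∀ ε : ℝ, 0 < ε → ξ q + ρ * (d - d'') ≤ ‖q‖ + ε := by
    intro ε hε
    have h1 : 0 < 2 * ρ + 1 := by positivity
    have h2 := key (ε / (2 * ρ + 1)) (by positivity)
    rw [mul_div_cancel₀ _ h1.ne'] at h2
    exact h2
  exact le_of_forall_pos_le_add hlast

end Pool.Agent.Lib.MP_2f7009_an
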