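import Pool.Agent.Lib.MP_2f7009_an.StepA

set_option autoImplicit false

namespace Pool.Agent.Lib.MP_2f7009_an

open Metric Set Filter Topology
open scoped Pointwise

theorem compact_hull_union {E : Type*} [AddCommGroup E] [Module ℝ E] [TopologicalSpace E]
    [ContinuousAdd E] [ContinuousSMul ℝ E] {s t : Set E} (hs : IsCompact s) (ht : IsCompact t)
    (hsc : Convex ℝ s) (htc : Convex ℝ t) : IsCompact (convexHull ℝ (s ∪ t)) := by
  rcases s.eq_empty_or_nonempty with rfl | hsne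
  · rw [empty_union, htc.convexHull_eq]; exact ht
  rcases t.eq_empty_or_nonempty with rfl | htne
  · rw [union_empty, hsc.convexHull_eq]; exact hs
  rw [convexHull_union hsne htne, hsc.convexHull_eq, htc.convexHull_eq]
  have h : convexJoin ℝ s t =
      (fun p : ℝ × E × E => (1 - p.1) • p.2.1 + p.1 • p.2.2) '' (Icc 0 1 ×ˢ s ×ˢ t) := by
    ext x
    simp only [mem_convexJoin, segment_eq_image, mem_image, mem_prod, Prod.exists]
    constructor
    · rintro ⟨a, ha, b, hb, θ, hθ, rfl⟩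
      exact ⟨θ, a, b, ⟨hθ, ha, hb⟩, rfl⟩
    · rintro ⟨θ, a, b, ⟨hθ, ha, hb⟩, rfl⟩
      exact ⟨a, ha, b, hb, θ, hθ, rfl⟩
  rw [h]
  refine (isCompact_Icc.prod (hs.prod ht)).image ?_
  fun_prop

variable {X : Type*} [NormedAddCommGroup X] [NormedSpace ℝ X]

theorem sep_weakstar (S : Set (WeakDual ℝ X)) (hS : IsCompact S) (hconv : Convex ℝ S)
    (ξ : WeakDual ℝ X) (hξ : ξ ∉ S) :
    ∃ u : X, ∀ φ ∈ S, φ u < ξ u := by
  have hlc : LocallyConvexSpace ℝ (WeakDual ℝ X) :=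
    inferInstanceAs (LocallyConvexSpace ℝ (WeakBilin (topDualPairing ℝ X)))
  obtain ⟨f, c, h1, h2⟩ := geometric_hahn_banach_closed_point hconv hS.isClosed hξ
  obtain ⟨u, hu⟩ := LinearMap.dualEmbedding_surjective (topDualPairing ℝ X) f
  have hev : ∀ φ : WeakDual ℝ X, f φ = φ u := by
    intro φ
    have h3 := congrArg (fun g : StrongDual ℝ (WeakBilin (topDualPairing ℝ X)) => g φ) hu
    exact h3.symm
  refine ⟨u, ?_⟩
  intro φ hφ
  have h3 := h1 φ hφ
  rw [hev] at h3 h2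
  exact h3.trans h2

/-- The weak-star closed convex hull of the part of `B` in the unit ball. -/
def KK (B : Set (X →L[ℝ] ℝ)) : Set (WeakDual ℝ X) :=
  closure (StrongDual.toWeakDual '' convexHull ℝ (B ∩ closedBall 0 1))

theorem KK_compact (B : Set (X →L[ℝ] ℝ)) : IsCompact (KK B) := by
  refine (WeakDual.isCompact_closedBall (𝕜 := ℝ) (E := X) 0 1).of_isClosed_subset
    isClosed_closure ?_
  refine closure_minimal ?_ (WeakDual.isClosed_closedBall 0 1)
  rintro _ ⟨φ, hφ, rfl⟩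
  have h1 : convexHull ℝ (B ∩ closedBall 0 1) ⊆ closedBall 0 1 :=
    convexHull_min inter_subset_right (convex_closedBall 0 1)
  exact h1 hφ

theorem KK_convex (B : Set (X →L[ℝ] ℝ)) : Convex ℝ (KK B) := by
  refine Convex.closure ?_
  exact (convex_convexHull ℝ _).linear_image (StrongDual.toWeakDual (𝕜 := ℝ) (E := X)).toLinearMap

/-- The weak-star closed convex hull, in the elementwise form of the frozen statement. -/
def WW (B : Set (X →L[ℝ] ℝ)) : Set (X →L[ℝ] ℝ) :=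
  {φ : X →L[ℝ] ℝ | ∀ F : Finset X, ∀ ε : ℝ, 0 < ε →
            ∃ ψ ∈ convexHull ℝ B, ∀ x ∈ F, |φ x - ψ x| < ε}

theorem KK_sub_WW (B : Set (X →L[ℝ] ℝ)) (φ : WeakDual ℝ X) (hφ : φ ∈ KK B) :
    WeakDual.toStrongDual φ ∈ WW B := by
  intro F ε hε
  have hopen : IsOpen (⋂ x ∈ F, {ψ : WeakDual ℝ X | |φ x - ψ x| < ε}) := by
    refine isOpen_biInter_finset ?_
    intro x _
    have hc : Continuous fun ψ : WeakDual ℝ X => |φ x - ψ x| :=
      (continuous_const.sub (WeakDual.eval_continuous x)).abs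
    exact isOpen_lt hc continuous_const
  obtain ⟨ψ, hψ1, hψ2⟩ := mem_closure_iff.mp hφ _ hopen (by
    simp only [mem_iInter]
    intro x _
    change |φ x - φ x| < ε
    rw [sub_self, abs_zero]
    exact hε)
  obtain ⟨ψ', hψ', rfl⟩ := hψ2
  refine ⟨ψ', convexHull_mono inter_subset_left hψ', ?_⟩
  intro x hx
  simp only [mem_iInter] at hψ1
  exact hψ1 x hx

/-- Increasing compact convex hulls. -/
noncomputable def HH (B : ℕ → Set (X →L[ℝ] ℝ)) : ℕ → Set (WeakDual ℝ X)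
  | 0 => KK (B 0)
  | n + 1 => convexHull ℝ (HH B n ∪ KK (B (n+1)))

theorem HH_convex (B : ℕ → Set (X →L[ℝ] ℝ)) (n : ℕ) : Convex ℝ (HH B n) := by
  cases n with
  | zero => exact KK_convex _
  | succ n => exact convex_convexHull ℝ _

theorem HH_compact (B : ℕ → Set (X →L[ℝ] ℝ)) (n : ℕ) : IsCompact (HH B n) := by
  induction n with
  | zero => exact KK_compact _
  | succ n ih => exact compact_hull_union ih (KK_compact _) (HH_convex B n) (KK_convex _)

theorem KK_sub_HH (B : ℕ → Set (X →L[ℝ] ℝ)) (n k : ℕ) (hk : k ≤ n) : KK (B k) ⊆ HH B n := by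
  induction n with
  | zero =>
    have : k = 0 := by omega
    subst this
    exact subset_rfl
  | succ n ih =>
    rcases Nat.lt_or_ge n k with h | h
    · have : k = n + 1 := by omega
      subst this
      exact subset_union_right.trans (subset_convexHull ℝ _)
    · exact (ih h).trans (subset_union_left.trans (subset_convexHull ℝ _))

theorem HH_sub (B : ℕ → Set (X →L[ℝ] ℝ)) (n : ℕ) :
    HH B n ⊆ WeakDual.toStrongDual ⁻¹' (convexHull ℝ (⋃ k, WW (B k))) := by
  let P : Set (WeakDual ℝ X) := (WeakDual.toStrongDual (𝕜 := ℝ) (E := X)) ⁻¹'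
      (convexHull ℝ (⋃ k, WW (B k)))
  have hconv : Convex ℝ P :=
    (convex_convexHull ℝ (⋃ k, WW (B k))).linear_preimage
      (WeakDual.toStrongDual (𝕜 := ℝ) (E := X)).toLinearMap
  have hK : ∀ k, KK (B k) ⊆ WeakDual.toStrongDual ⁻¹' (convexHull ℝ (⋃ k, WW (B k))) := by
    intro k φ hφ
    have h1 : WeakDual.toStrongDual φ ∈ convexHull ℝ (⋃ k, WW (B k)) :=
      subset_convexHull ℝ (⋃ k, WW (B k)) (mem_iUnion.mpr ⟨k, KK_sub_WW (B k) φ hφ⟩)
    exact h1
  induction n with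
  | zero => exact hK 0
  | succ n ih => exact convexHull_min (union_subset ih (hK (n+1))) hconv

/-- Separation of a functional at distance more than `r` from the convex hull. -/
theorem exists_sep (B : ℕ → Set (X →L[ℝ] ℝ)) (ξ : X →L[ℝ] ℝ) (r : ℝ) (hr : 0 < r)
    (hfar : ∀ h ∈ convexHull ℝ (⋃ k, WW (B k)), r < dist ξ h) (n : ℕ) :
    ∃ u : X, ‖u‖ ≤ 1 ∧ ∀ k ≤ n, ∀ a ∈ B k, ‖a‖ ≤ 1 → a u + r ≤ ξ u := by
  let S : Set (WeakDual ℝ X) :=
    HH B n + (WeakDual.toStrongDual (𝕜 := ℝ) (E := X)) ⁻¹' closedBall 0 r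
  have hScomp : IsCompact S := (HH_compact B n).add (WeakDual.isCompact_closedBall 0 r)
  have hSconv : Convex ℝ S := (HH_convex B n).add
    ((convex_closedBall (0 : X →L[ℝ] ℝ) r).linear_preimage
      (WeakDual.toStrongDual (𝕜 := ℝ) (E := X)).toLinearMap)
  have hnot : StrongDual.toWeakDual ξ ∉ S := by
    rintro ⟨h, hh, b, hb, hsum⟩
    have h1 : r < dist ξ (WeakDual.toStrongDual h) := hfar (WeakDual.toStrongDual h) (HH_sub B n hh)
    have h2 : ξ = WeakDual.toStrongDual h + WeakDual.toStrongDual b := by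
      have h3 := congrArg (WeakDual.toStrongDual (𝕜 := ℝ) (E := X)) hsum
      have h4 : WeakDual.toStrongDual (h + b) =
        WeakDual.toStrongDual h + WeakDual.toStrongDual b := map_add _ _ _
      exact (h4.symm.trans h3).symm
    have h5 : ‖WeakDual.toStrongDual b‖ ≤ r := by
      have h6 : WeakDual.toStrongDual b ∈ closedBall (0 : X →L[ℝ] ℝ) r := hb
      rwa [mem_closedBall_zero_iff] at h6
    rw [dist_eq_norm] at h1
    have h7 : ξ - WeakDual.toStrongDual h = WeakDual.toStrongDual b := by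
      rw [sub_eq_iff_eq_add]
      exact h2.trans (add_comm _ _)
    have h8 : ‖ξ - WeakDual.toStrongDual h‖ = ‖WeakDual.toStrongDual b‖ := by rw [h7]
    linarith
  obtain ⟨u, hu⟩ := sep_weakstar S hScomp hSconv _ hnot
  have hest : ∀ k ≤ n, ∀ a ∈ B k, ‖a‖ ≤ 1 → a u + r * ‖u‖ < ξ u := by
    intro k hk a ha ha1
    obtain ⟨g, hg1, hg2⟩ := exists_norming u
    have h1 : StrongDual.toWeakDual a ∈ HH B n := by
      refine KK_sub_HH B n k hk ?_
      refine subset_closure ⟨a, subset_convexHull ℝ _ ⟨ha, ?_⟩, rfl⟩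
      rwa [mem_closedBall_zero_iff]
    have h2 : StrongDual.toWeakDual (r • g) ∈
        (WeakDual.toStrongDual (𝕜 := ℝ) (E := X)) ⁻¹' closedBall 0 r := by
      change r • g ∈ closedBall (0 : X →L[ℝ] ℝ) r
      rw [mem_closedBall_zero_iff, norm_smul, Real.norm_of_nonneg hr.le]
      have := mul_le_mul_of_nonneg_left hg1 hr.le
      linarith
    have h3 := hu _ (add_mem_add h1 h2)
    have h4 : (StrongDual.toWeakDual a + StrongDual.toWeakDual (r • g) : WeakDual ℝ X) u =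
        a u + r * g u := rfl
    rw [h4, hg2] at h3
    exact h3
  by_cases hu0 : u = 0
  · refine ⟨0, by simp, ?_⟩
    intro k hk a ha ha1
    have := hest k hk a ha ha1
    rw [hu0] at this
    simp at this
  · have hupos : 0 < ‖u‖ := norm_pos_iff.mpr hu0
    refine ⟨‖u‖⁻¹ • u, ?_, ?_⟩
    · rw [norm_smul, norm_inv, norm_norm, inv_mul_cancel₀ hupos.ne']
    · intro k hk a ha ha1
      have h4 := (hest k hk a ha ha1).le
      rw [map_smul, map_smul, smul_eq_mul, smul_eq_mul]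
      have h5 := mul_le_mul_of_nonneg_left h4 (inv_nonneg.mpr hupos.le)
      have h6 : ‖u‖⁻¹ * (a u + r * ‖u‖) = ‖u‖⁻¹ * a u + r := by
        field_simp
      linarith

theorem main_thm [CompleteSpace X] [TopologicalSpace.SeparableSpace X]
    (B : ℕ → Set (X →L[ℝ] ℝ))
    (hB : {φ : X →L[ℝ] ℝ | ‖φ‖ ≤ 1 ∧ ∃ x : X, ∀ ψ : X →L[ℝ] ℝ, ‖ψ‖ ≤ 1 → ψ ≠ φ → ψ x < φ x}
          ⊆ ⋃ n, B n) :
    closedBall (0 : X →L[ℝ] ℝ) 1 ⊆ closure (convexHull ℝ (⋃ n, WW (B n))) := by
  intro ξ hξ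
  rw [mem_closedBall_zero_iff] at hξ
  by_contra hcon
  rw [Metric.mem_closure_iff] at hcon
  push Not at hcon
  obtain ⟨ε, hε, hfar⟩ := hcon
  let A : ℕ → Set (X →L[ℝ] ℝ) := fun n => {a | ∃ k ≤ n, a ∈ B k ∧ ‖a‖ ≤ 1}
  have hA : Monotone A := by
    rintro n m hnm a ⟨k, hk, ha⟩
    exact ⟨k, hk.trans hnm, ha⟩
  have hE : ∀ ξ : X →L[ℝ] ℝ, ‖ξ‖ ≤ 1 →
      (∃ x : X, ∀ ψ : X →L[ℝ] ℝ, ‖ψ‖ ≤ 1 → ψ ≠ ξ → ψ x < ξ x) → ∃ n, ξ ∈ A n := by
    intro ξ h1 h2
    obtain ⟨n, hn⟩ := mem_iUnion.mp (hB ⟨h1, h2⟩)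
    exact ⟨n, n, le_rfl, hn, h1⟩
  have hA' := stepA A hA hE (TopologicalSpace.denseSeq X) (TopologicalSpace.denseRange_denseSeq X)
  have hsep := exists_sep B ξ (ε / 2) (by positivity) (fun h hh => by
    have := hfar h hh
    linarith)
  have h1 := gain A hA 0 1 one_pos ξ hξ (ε / 2) (ε / 4) (by positivity) (by
    intro n
    obtain ⟨u, hu1, hu2⟩ := hsep n
    refine ⟨u, hu1, ?_⟩
    rintro a ⟨k, hk, ha, ha1⟩
    exact hu2 k hk a ha ha1) (by
    intro w _
    have h2 := hA' (ε / 4) (by positivity) (0 + (1:ℝ) • w)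
    by_contra hcon
    push Not at hcon
    exact h2 hcon)
  rw [map_zero, norm_zero] at h1
  linarith

end Pool.Agent.Lib.MP_2f7009_an
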