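import Mathlib

set_option autoImplicit false

/-!
A Simons type selection lemma, and the gain inequality derived from it.
-/

namespace Pool.Agent.Lib.MP_2f7009_an

open Metric Set Filter Topology

variable {X : Type*} [NormedAddCommGroup X] [NormedSpace ℝ X]

omit [NormedAddCommGroup X] [NormedSpace ℝ X] in
theorem exists_almost_min {S : Set X} (hS : S.Nonempty) (f : X → ℝ) (hf : ∀ x, 0 ≤ f x)
    {ε : ℝ} (hε : 0 < ε) : ∃ z ∈ S, ∀ z' ∈ S, f z ≤ f z' + ε := by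
  have hne : (f '' S).Nonempty := hS.image f
  have hbdd : BddBelow (f '' S) := ⟨0, by rintro _ ⟨x, _, rfl⟩; exact hf x⟩
  obtain ⟨_, ⟨z, hz, rfl⟩, hlt⟩ := Real.lt_sInf_add_pos hne hε
  refine ⟨z, hz, fun z' hz' => ?_⟩
  have := csInf_le hbdd (mem_image_of_mem f hz')
  linarith

theorem summable_half {R : ℝ} (z : ℕ → X) (hz : ∀ n, ‖z n‖ ≤ R) [CompleteSpace X] :
    Summable (fun k => ((1:ℝ)/2)^(k+1) • z k) := by
  have hs : Summable (fun k : ℕ => ((1:ℝ)/2)^(k+1) * R) := by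
    have : Summable (fun k : ℕ => ((1:ℝ)/2)^k) := summable_geometric_two
    have h2 := this.mul_right ((1/2) * R)
    refine h2.congr ?_
    intro k; ring
  refine Summable.of_norm_bounded hs ?_
  intro k
  rw [norm_smul, Real.norm_of_nonneg (by positivity)]
  exact mul_le_mul_of_nonneg_left (hz k) (by positivity)

/-- A Simons type selection lemma. -/
theorem simons_core [CompleteSpace X] (C : ℕ → Set X) (hanti : Antitone C)
    (hconv : ∀ n, Convex ℝ (C n)) (hne : ∀ n, (C n).Nonempty) (R : ℝ)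
    (hbd : ∀ z ∈ C 0, ‖z‖ ≤ R) (m : ℝ) (hm : ∀ z ∈ C 0, m ≤ ‖z‖) (θ : ℝ) (hθ : 0 < θ) :
    ∃ z : ℕ → X, (∀ n, z n ∈ C n) ∧ ∀ n : ℕ,
      ‖∑ k ∈ Finset.range n, ((1:ℝ)/2)^(k+1) • z k‖ + ((1:ℝ)/2)^n * (m - θ) ≤
        ‖∑' k, ((1:ℝ)/2)^(k+1) • z k‖ := by
  have hex : ∀ n : ℕ, ∀ p : X, ∃ z ∈ C n, ∀ z' ∈ C n,
      ‖p + ((1:ℝ)/2)^n • z‖ ≤ ‖p + ((1:ℝ)/2)^n • z'‖ + θ * ((1:ℝ)/4)^(n+2) := by
    intro n p
    exact exists_almost_min (hne n) (fun z => ‖p + ((1:ℝ)/2)^n • z‖) (fun _ => norm_nonneg _)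
      (by positivity)
  choose zsel hzC hzmin using hex
  let p : ℕ → X := fun n => Nat.rec (0 : X) (fun n p => p + ((1:ℝ)/2)^(n+1) • zsel n p) n
  have hp0 : p 0 = 0 := rfl
  have hps : ∀ n, p (n+1) = p n + ((1:ℝ)/2)^(n+1) • zsel n (p n) := fun n => rfl
  set z : ℕ → X := fun n => zsel n (p n) with hz
  have hzmem : ∀ n, z n ∈ C n := fun n => hzC n (p n)
  have hzmin' : ∀ n, ∀ z' ∈ C n,
      ‖p n + ((1:ℝ)/2)^n • z n‖ ≤ ‖p n + ((1:ℝ)/2)^n • z'‖ + θ * ((1:ℝ)/4)^(n+2) :=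
    fun n z' hz' => hzmin n (p n) z' hz'
  have hps' : ∀ n, p (n+1) = p n + ((1:ℝ)/2)^(n+1) • z n := hps
  have hpsum : ∀ n, p n = ∑ k ∈ Finset.range n, ((1:ℝ)/2)^(k+1) • z k := by
    intro n
    induction n with
    | zero => simp [hp0]
    | succ n ih => rw [Finset.sum_range_succ, ← ih, hps']
  set w : ℕ → X := fun n => p n + ((1:ℝ)/2)^n • z n with hw
  -- (a)
  have ha : ∀ n, ‖w n‖ ≤ ‖w (n+1)‖ + θ * ((1:ℝ)/4)^(n+2) := by
    intro n
    have hmem : ((1:ℝ)/2) • z n + ((1:ℝ)/2) • z (n+1) ∈ C n :=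
      hconv n (hzmem n) (hanti (Nat.le_succ n) (hzmem (n+1))) (by norm_num) (by norm_num)
        (by norm_num)
    have h1 := hzmin' n _ hmem
    have h2 : w (n+1) = p n + ((1:ℝ)/2)^n • (((1:ℝ)/2) • z n + ((1:ℝ)/2) • z (n+1)) := by
      simp only [hw]
      rw [hps' n, smul_add, smul_smul, smul_smul, ← pow_succ, add_assoc]
    rw [h2]
    exact h1
  -- (b)
  have hb : ∀ n, ‖p (n+1)‖ ≤ (‖p n‖ + ‖w n‖)/2 := by
    intro n
    have h1 : p (n+1) = ((1:ℝ)/2) • p n + ((1:ℝ)/2) • w n := by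
      simp only [hw]
      rw [hps' n, smul_add, smul_smul, ← add_assoc, ← add_smul, pow_succ]
      norm_num
      rw [mul_comm]
    rw [h1]
    refine (norm_add_le _ _).trans ?_
    rw [norm_smul, norm_smul, Real.norm_of_nonneg (by norm_num : (0:ℝ) ≤ 1/2)]
    linarith
  -- (c)
  have hc : ∀ n : ℕ, ‖p n‖ + ((1:ℝ)/2)^n * (m - θ/4*(1-((1:ℝ)/2)^n)) ≤ ‖w n‖ := by
    intro n
    induction n with
    | zero =>
      simp only [hw, hp0, pow_zero, norm_zero, one_smul, zero_add]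
      have := hm (z 0) (hzmem 0)
      linarith
    | succ n ih =>
      have h1 := ha n
      have h2 := hb n
      have h3 : ((1:ℝ)/4)^(n+2) = ((1:ℝ)/2)^n * ((1:ℝ)/2)^n / 16 := by
        have : ((1:ℝ)/4) = (1/2)*(1/2) := by norm_num
        rw [this, mul_pow]; ring
      rw [h3] at h1
      have h4 : ((1:ℝ)/2)^(n+1) = ((1:ℝ)/2)^n/2 := by ring
      rw [h4]
      nlinarith
  -- limit
  have hzR : ∀ n, ‖z n‖ ≤ R := fun n => hbd _ (hanti (Nat.zero_le n) (hzmem n))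
  have hsum := summable_half z hzR
  have hptend : Tendsto p atTop (𝓝 (∑' k, ((1:ℝ)/2)^(k+1) • z k)) := by
    have := hsum.hasSum.tendsto_sum_nat
    refine this.congr ?_
    intro n; exact (hpsum n).symm
  have hsmall : Tendsto (fun n => ((1:ℝ)/2)^n • z n) atTop (𝓝 0) := by
    rw [tendsto_zero_iff_norm_tendsto_zero]
    have h1 : Tendsto (fun n : ℕ => ((1:ℝ)/2)^n * R) atTop (𝓝 (0 * R)) :=
      (tendsto_pow_atTop_nhds_zero_of_lt_one (by norm_num) (by norm_num)).mul_const R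
    rw [zero_mul] at h1
    refine squeeze_zero (fun _ => norm_nonneg _) ?_ h1
    intro n
    rw [norm_smul, Real.norm_of_nonneg (by positivity)]
    exact mul_le_mul_of_nonneg_left (hzR n) (by positivity)
  have hwtend : Tendsto w atTop (𝓝 (∑' k, ((1:ℝ)/2)^(k+1) • z k)) := by
    have := hptend.add hsmall
    rw [add_zero] at this
    exact this
  have hmono : Monotone (fun n => ‖w n‖ - 2 * (θ * ((1:ℝ)/4)^(n+2))) := by
    refine monotone_nat_of_le_succ ?_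
    intro n
    have h1 := ha n
    have h2 : ((1:ℝ)/4)^(n+1+2) = ((1:ℝ)/4)^(n+2)/4 := by ring
    have h3 : 0 < θ * ((1:ℝ)/4)^(n+2) := by positivity
    rw [h2]
    nlinarith
  have hlim : Tendsto (fun n => ‖w n‖ - 2 * (θ * ((1:ℝ)/4)^(n+2))) atTop
      (𝓝 ‖∑' k, ((1:ℝ)/2)^(k+1) • z k‖) := by
    have h1 : Tendsto (fun n : ℕ => 2 * (θ * ((1:ℝ)/4)^(n+2))) atTop (𝓝 (2 * (θ * 0))) := by
      refine Tendsto.const_mul _ (Tendsto.const_mul _ ?_)
      have := tendsto_pow_atTop_nhds_zero_of_lt_one (by norm_num : (0:ℝ) ≤ 1/4)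
        (by norm_num : (1:ℝ)/4 < 1)
      exact this.comp (tendsto_add_atTop_nat 2)
    have h2 := hwtend.norm.sub h1
    simpa using h2
  refine ⟨z, hzmem, ?_⟩
  intro n
  have h1 := hmono.ge_of_tendsto hlim n
  have h2 := hc n
  rw [← hpsum n]
  have h3 : ((1:ℝ)/4)^(n+2) = ((1:ℝ)/2)^n * ((1:ℝ)/2)^n / 16 := by
    have : ((1:ℝ)/4) = (1/2)*(1/2) := by norm_num
    rw [this, mul_pow]; ring
  have h4 : ((1:ℝ)/2)^n ≤ 1 := pow_le_one₀ (by norm_num) (by norm_num)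
  have h5 : 0 < ((1:ℝ)/2)^n := by positivity
  rw [h3] at h1
  have h6 : θ * (((1:ℝ)/2)^n * ((1:ℝ)/2)^n) ≤ θ * ((1:ℝ)/2)^n := by
    refine mul_le_mul_of_nonneg_left ?_ hθ.le
    nlinarith
  nlinarith

end Pool.Agent.Lib.MP_2f7009_an
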