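import Pool.Agent.Lib.MP_2f7009_an.Gain

set_option autoImplicit false

namespace Pool.Agent.Lib.MP_2f7009_an

open Metric Set Filter Topology

variable {X : Type*} [NormedAddCommGroup X] [NormedSpace ℝ X]

theorem PP_closed (A : ℕ → Set (X →L[ℝ] ℝ)) (n : ℕ) (d : ℝ) : IsClosed {x : X | PP A n d x} := by
  rw [← isOpen_compl_iff, Metric.isOpen_iff]
  intro x hx
  have hx' : ¬ PP A n d x := hx
  unfold PP at hx'
  push Not at hx'
  obtain ⟨v, ε, hε, h⟩ := hx'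
  refine ⟨ε / 4, by positivity, ?_⟩
  intro y hy hyP
  have hyP' : PP A n d y := hyP
  obtain ⟨a, ha, hle⟩ := hyP' v (ε / 4) (by positivity)
  have h1 := h a ha
  rw [Metric.mem_ball, dist_eq_norm] at hy
  have h2 : ‖x‖ ≤ ‖y‖ + ‖y - x‖ := by
    have := norm_sub_norm_le x y
    rw [norm_sub_rev] at this
    linarith
  have h3 : ‖y - v‖ ≤ ‖x - v‖ + ‖y - x‖ := by
    have h4 : y - v = (x - v) + (y - x) := by abel
    rw [h4]
    exact norm_add_le _ _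
  linarith

theorem PP_mono {A : ℕ → Set (X →L[ℝ] ℝ)} {n : ℕ} {d e : ℝ} (hde : d ≤ e) {x : X}
    (h : PP A n d x) : PP A n e x := by
  intro v ε hε
  obtain ⟨a, ha, hle⟩ := h v ε hε
  refine ⟨a, ha, ?_⟩
  have := mul_le_mul_of_nonneg_right hde (norm_nonneg v)
  linarith

/-- The points where no `A n` comes `d`-close to the norming functionals. -/
def TT (A : ℕ → Set (X →L[ℝ] ℝ)) (d : ℝ) : Set X := {x | ∀ n, ¬ PP A n d x}

theorem TT_anti {A : ℕ → Set (X →L[ℝ] ℝ)} {d e : ℝ} (hde : d ≤ e) : TT A e ⊆ TT A d :=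
  fun _ hx n hP => hx n (PP_mono hde hP)

theorem TT_isGdelta (A : ℕ → Set (X →L[ℝ] ℝ)) (d : ℝ) : IsGδ (TT A d) := by
  have h : TT A d = ⋂ n, {x : X | PP A n d x}ᶜ := by
    ext x
    simp only [TT, mem_iInter, mem_compl_iff]
    exact Iff.rfl
  rw [h]
  exact IsGδ.iInter (fun n => (PP_closed A n d).isOpen_compl.isGδ)

/-- Quantified non-smoothness in direction `y`. -/
def NS (y : X) (κ : ℝ) : Set X :=
  {x | ∀ t : ℝ, 0 < t → κ * t ≤ ‖x + t • y‖ + ‖x - t • y‖ - 2 * ‖x‖}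

theorem NS_closed (y : X) (κ : ℝ) : IsClosed (NS y κ) := by
  have h : NS y κ = ⋂ t : ℝ, ⋂ _ : 0 < t,
      {x : X | κ * t ≤ ‖x + t • y‖ + ‖x - t • y‖ - 2 * ‖x‖} := by
    ext x
    simp only [NS, mem_iInter]
    exact Iff.rfl
  rw [h]
  refine isClosed_iInter (fun t => isClosed_iInter (fun _ => ?_))
  refine isClosed_le continuous_const ?_
  fun_prop

theorem le_norm_of_norm_le_one {ξ : X →L[ℝ] ℝ} (hξ : ‖ξ‖ ≤ 1) (v : X) : ξ v ≤ ‖v‖ := by
  have h1 := ξ.le_opNorm v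
  have h2 : ‖ξ‖ * ‖v‖ ≤ 1 * ‖v‖ := mul_le_mul_of_nonneg_right hξ (norm_nonneg v)
  have h3 : ξ v ≤ ‖ξ v‖ := le_abs_self _
  linarith

theorem exists_norming (x : X) : ∃ ξ : X →L[ℝ] ℝ, ‖ξ‖ ≤ 1 ∧ ξ x = ‖x‖ := by
  obtain ⟨g, hg1, hg2⟩ := exists_dual_vector'' ℝ x
  exact ⟨g, hg1, by simpa using hg2⟩

/-- Points outside all the `NS` sets have a unique norming functional, which is exposed. -/
theorem cover_NS (A : ℕ → Set (X →L[ℝ] ℝ))
    (hE : ∀ ξ : X →L[ℝ] ℝ, ‖ξ‖ ≤ 1 →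
      (∃ x : X, ∀ ψ : X →L[ℝ] ℝ, ‖ψ‖ ≤ 1 → ψ ≠ ξ → ψ x < ξ x) → ∃ n, ξ ∈ A n)
    (y : ℕ → X) (hy : DenseRange y) (x : X) (hx : x ∈ TT A 0) :
    ∃ j k : ℕ, x ∈ NS (y j) (1 / ((k:ℝ) + 1)) := by
  by_contra hcon
  push Not at hcon
  have huniq : ∀ ξ ξ' : X →L[ℝ] ℝ, ‖ξ‖ ≤ 1 → ‖ξ'‖ ≤ 1 → ξ x = ‖x‖ → ξ' x = ‖x‖ → ξ = ξ' := by
    have hle : ∀ ξ ξ' : X →L[ℝ] ℝ, ‖ξ‖ ≤ 1 → ‖ξ'‖ ≤ 1 → ξ x = ‖x‖ → ξ' x = ‖x‖ →
        ∀ j, ξ (y j) ≤ ξ' (y j) := by
      intro ξ ξ' h1 h2 h3 h4 j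
      refine le_of_forall_pos_le_add ?_
      intro ε hε
      obtain ⟨k, hk⟩ := exists_nat_one_div_lt hε
      have h5 : ¬ ∀ t : ℝ, 0 < t → (1 / ((k:ℝ) + 1)) * t ≤
          ‖x + t • y j‖ + ‖x - t • y j‖ - 2 * ‖x‖ := hcon j k
      push Not at h5
      obtain ⟨t, ht, hlt⟩ := h5
      have h6 := le_norm_of_norm_le_one h1 (x + t • y j)
      have h7 := le_norm_of_norm_le_one h2 (x - t • y j)
      rw [map_add, map_smul, smul_eq_mul, h3] at h6
      rw [map_sub, map_smul, smul_eq_mul, h4] at h7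
      have h8 : t * (ξ (y j) - ξ' (y j)) < t * (1 / ((k:ℝ) + 1)) := by nlinarith
      have h9 := lt_of_mul_lt_mul_left h8 ht.le
      linarith
    intro ξ ξ' h1 h2 h3 h4
    have h5 : (fun v => ξ v) = fun v => ξ' v := by
      refine hy.equalizer ξ.continuous ξ'.continuous ?_
      ext j
      exact le_antisymm (hle ξ ξ' h1 h2 h3 h4 j) (hle ξ' ξ h2 h1 h4 h3 j)
    ext v
    exact congrFun h5 v
  obtain ⟨ξ, hξ1, hξ2⟩ := exists_norming x
  have hexp : ∀ ψ : X →L[ℝ] ℝ, ‖ψ‖ ≤ 1 → ψ ≠ ξ → ψ x < ξ x := by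
    intro ψ hψ hne
    rw [hξ2]
    refine lt_of_le_of_ne (le_norm_of_norm_le_one hψ x) ?_
    intro heq
    exact hne (huniq ψ ξ hψ hξ1 heq hξ2)
  obtain ⟨n, hn⟩ := hE ξ hξ1 ⟨x, hexp⟩
  refine hx n ?_
  intro v ε hε
  refine ⟨ξ, hn, ?_⟩
  have h1 := le_norm_of_norm_le_one hξ1 (x - v)
  rw [map_sub, hξ2] at h1
  linarith

/-- One-sided directional derivative of the norm at `x0`. -/
noncomputable def dd (x0 v : X) : ℝ := ⨅ t : {t : ℝ // 0 < t}, (‖x0 + (t:ℝ) • v‖ - ‖x0‖) / (t:ℝ)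

theorem dd_lower (x0 v : X) (t : ℝ) (ht : 0 < t) : -‖v‖ ≤ (‖x0 + t • v‖ - ‖x0‖) / t := by
  rw [le_div_iff₀ ht]
  have h1 : ‖x0‖ ≤ ‖x0 + t • v‖ + ‖t • v‖ := by
    have h2 : x0 = (x0 + t • v) - t • v := by abel
    calc ‖x0‖ = ‖(x0 + t • v) - t • v‖ := by rw [← h2]
      _ ≤ _ := norm_sub_le _ _
  rw [norm_smul, Real.norm_of_nonneg ht.le] at h1
  linarith

theorem dd_bdd (x0 v : X) :
    BddBelow (range fun t : {t : ℝ // 0 < t} => (‖x0 + (t:ℝ) • v‖ - ‖x0‖) / (t:ℝ)) :=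
  ⟨-‖v‖, by rintro _ ⟨⟨t, ht⟩, rfl⟩; exact dd_lower x0 v t ht⟩

theorem dd_le (x0 v : X) (t : ℝ) (ht : 0 < t) : dd x0 v ≤ (‖x0 + t • v‖ - ‖x0‖) / t :=
  ciInf_le (dd_bdd x0 v) ⟨t, ht⟩

instance : Nonempty {t : ℝ // 0 < t} := ⟨⟨1, one_pos⟩⟩

theorem le_dd (x0 v : X) (a : ℝ) (h : ∀ t : ℝ, 0 < t → a ≤ (‖x0 + t • v‖ - ‖x0‖) / t) :
    a ≤ dd x0 v := le_ciInf (fun ⟨t, ht⟩ => h t ht)

theorem dd_smul (x0 v : X) (c : ℝ) (hc : 0 < c) : dd x0 (c • v) = c * dd x0 v := by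
  have hle : ∀ (v : X) (c : ℝ), 0 < c → c * dd x0 v ≤ dd x0 (c • v) := by
    intro v c hc
    refine le_dd _ _ _ ?_
    intro t ht
    have h1 := dd_le x0 v (t * c) (by positivity)
    rw [le_div_iff₀ (by positivity)] at h1
    rw [le_div_iff₀ ht, smul_smul]
    linarith
  refine le_antisymm ?_ (hle v c hc)
  have h1 := hle (c • v) c⁻¹ (by positivity)
  rw [smul_smul, inv_mul_cancel₀ hc.ne', one_smul] at h1
  have h2 := mul_le_mul_of_nonneg_left h1 hc.le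
  rw [← mul_assoc, mul_inv_cancel₀ hc.ne', one_mul] at h2
  exact h2

theorem dd_add (x0 v w : X) : dd x0 (v + w) ≤ dd x0 v + dd x0 w := by
  have key : ∀ s t : ℝ, 0 < s → 0 < t →
      dd x0 (v + w) ≤ (‖x0 + s • v‖ - ‖x0‖) / s + (‖x0 + t • w‖ - ‖x0‖) / t := by
    intro s t hs ht
    have hst : 0 < s + t := by positivity
    set r : ℝ := s * t / (s + t) with hr
    have hrpos : 0 < r := by positivity
    refine (dd_le x0 (v + w) r hrpos).trans ?_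
    have h1 : x0 + r • (v + w) = (t / (s + t)) • (x0 + s • v) + (s / (s + t)) • (x0 + t • w) := by
      have h2 : (t / (s + t)) + (s / (s + t)) = 1 := by field_simp; ring
      have h3 : (t / (s + t)) * s = r := by rw [hr]; ring
      have h4 : (s / (s + t)) * t = r := by rw [hr]; ring
      rw [smul_add, smul_add, smul_add, smul_smul, smul_smul, h3, h4]
      calc x0 + (r • v + r • w) = ((t / (s + t)) + (s / (s + t))) • x0 + (r • v + r • w) := by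
            rw [h2, one_smul]
        _ = _ := by rw [add_smul]; abel
    have h5 : ‖x0 + r • (v + w)‖ ≤ (t / (s + t)) * ‖x0 + s • v‖ + (s / (s + t)) * ‖x0 + t • w‖ := by
      rw [h1]
      refine (norm_add_le _ _).trans ?_
      rw [norm_smul, norm_smul, Real.norm_of_nonneg (by positivity),
        Real.norm_of_nonneg (by positivity : 0 ≤ s / (s + t))]
    rw [div_le_iff₀ hrpos]
    have h6 : ((‖x0 + s • v‖ - ‖x0‖) / s + (‖x0 + t • w‖ - ‖x0‖) / t) * r =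
        (t / (s + t)) * ‖x0 + s • v‖ + (s / (s + t)) * ‖x0 + t • w‖ - ‖x0‖ := by
      rw [hr]; field_simp; ring
    rw [h6]
    linarith
  have h1 : ∀ s : ℝ, 0 < s → dd x0 (v + w) - (‖x0 + s • v‖ - ‖x0‖) / s ≤ dd x0 w := by
    intro s hs
    refine le_dd _ _ _ ?_
    intro t ht
    have := key s t hs ht
    linarith
  have h2 : dd x0 (v + w) - dd x0 w ≤ dd x0 v := by
    refine le_dd _ _ _ ?_
    intro s hs
    have := h1 s hs
    linarith
  linarith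

theorem dd_zero (x0 : X) : dd x0 0 = 0 := by
  refine le_antisymm ?_ ?_
  · have := dd_le x0 0 1 one_pos
    simpa using this
  · refine le_dd _ _ _ ?_
    intro t ht
    simp

theorem dd_le_norm (x0 v : X) : dd x0 v ≤ ‖v‖ := by
  refine (dd_le x0 v 1 one_pos).trans ?_
  rw [one_smul, div_one]
  have := norm_add_le x0 v
  linarith

/-- Hahn-Banach: a norming functional realising the one-sided derivative. -/
theorem exists_dd (x0 y : X) : ∃ ξ : X →L[ℝ] ℝ, ‖ξ‖ ≤ 1 ∧ ξ x0 = ‖x0‖ ∧ ξ y = dd x0 y := by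
  by_cases hy0 : y = 0
  · obtain ⟨ξ, h1, h2⟩ := exists_norming x0
    refine ⟨ξ, h1, h2, ?_⟩
    rw [hy0, dd_zero, map_zero]
  let f : X →ₗ.[ℝ] ℝ := LinearPMap.mkSpanSingleton y (dd x0 y) hy0
  have hf : ∀ x : f.domain, f x ≤ dd x0 (x : X) := by
    rintro ⟨x, hx⟩
    have hx' : x ∈ Submodule.span ℝ {y} := hx
    obtain ⟨s, rfl⟩ := Submodule.mem_span_singleton.mp hx'
    have h1 : f ⟨s • y, hx⟩ = s • dd x0 y := LinearPMap.mkSpanSingleton'_apply _ _ _ s hx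
    rw [h1, smul_eq_mul]
    rcases lt_trichotomy s 0 with hs | hs | hs
    · have h2 : dd x0 (s • y) = (-s) * dd x0 (-y) := by
        rw [← dd_smul x0 (-y) (-s) (by linarith)]
        simp
      have h3 := dd_add x0 y (-y)
      rw [add_neg_cancel, dd_zero] at h3
      change s * dd x0 y ≤ dd x0 (s • y)
      rw [h2]
      nlinarith
    · subst hs
      simp [dd_zero]
    · change s * dd x0 y ≤ dd x0 (s • y)
      rw [dd_smul x0 y s hs]
  obtain ⟨g, hg1, hg2⟩ := exists_extension_of_le_sublinear f (dd x0)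
    (fun c hc x => dd_smul x0 x c hc) (fun v w => dd_add x0 v w) hf
  have hgn : ∀ v, ‖g v‖ ≤ 1 * ‖v‖ := by
    intro v
    rw [one_mul, Real.norm_eq_abs, abs_le]
    constructor
    · have h1 := (hg2 (-v)).trans (dd_le_norm x0 (-v))
      rw [map_neg, norm_neg] at h1
      linarith
    · exact (hg2 v).trans (dd_le_norm x0 v)
  refine ⟨g.mkContinuous 1 hgn, LinearMap.mkContinuous_norm_le _ zero_le_one _, ?_, ?_⟩
  · rw [LinearMap.mkContinuous_apply]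
    refine le_antisymm ?_ ?_
    · have h1 := hgn x0
      rw [one_mul, Real.norm_eq_abs] at h1
      exact (le_abs_self _).trans h1
    · have h1 := (hg2 (-x0)).trans (dd_le x0 (-x0) 1 one_pos)
      rw [map_neg] at h1
      simp at h1
      linarith
  · rw [LinearMap.mkContinuous_apply]
    have hmem : y ∈ f.domain := Submodule.mem_span_singleton_self y
    have h1 := hg1 ⟨y, hmem⟩
    change g y = dd x0 y
    have h2 : (g (⟨y, hmem⟩ : f.domain) : ℝ) = g y := rfl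
    rw [← h2, h1]
    exact LinearPMap.mkSpanSingleton'_apply_self _ _ _ hmem

end Pool.Agent.Lib.MP_2f7009_an
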