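import Pool.Agent.Lib.MP_2f7009_an.Smooth

set_option autoImplicit false

namespace Pool.Agent.Lib.MP_2f7009_an

open Metric Set Filter Topology

variable {X : Type*} [NormedAddCommGroup X] [NormedSpace ℝ X]

/-- Convexity of the norm along a line, scaled. -/
theorem norm_line (x v : X) {t s : ℝ} (ht : 0 ≤ t) (hts : t ≤ s) :
    s * ‖x + t • v‖ ≤ (s - t) * ‖x‖ + t * ‖x + s • v‖ := by
  have h1 : s • (x + t • v) = (s - t) • x + t • (x + s • v) := by
    rw [smul_add, smul_add, sub_smul, smul_smul, smul_smul, mul_comm s t]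
    abel
  have h2 : ‖s • (x + t • v)‖ ≤ ‖(s - t) • x‖ + ‖t • (x + s • v)‖ := by
    rw [h1]; exact norm_add_le _ _
  rw [norm_smul, norm_smul, norm_smul, Real.norm_of_nonneg (ht.trans hts),
    Real.norm_of_nonneg (sub_nonneg.mpr hts), Real.norm_of_nonneg ht] at h2
  exact h2

/-- One step of the chain. -/
theorem chain_step (x y z : X) (a κ t : ℝ) (ht : 0 < t)
    (hL : ∀ s : ℝ, 0 < s → a * s ≤ ‖x + s • y‖ - ‖x‖)
    (hz : ‖z‖ ≤ κ / 4 * t) (hNS : x + t • y + z ∈ NS y κ) :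
    ∀ s : ℝ, 0 < s → (a + κ / 2) * s ≤ ‖(x + t • y + z) + s • y‖ - ‖x + t • y + z‖ := by
  set x' := x + t • y + z with hx'
  have h1 : ‖x' - t • y‖ ≤ ‖x‖ + ‖z‖ := by
    have : x' - t • y = x + z := by rw [hx']; abel
    rw [this]; exact norm_add_le _ _
  have h2 : ‖x + t • y‖ ≤ ‖x'‖ + ‖z‖ := by
    have : x + t • y = x' - z := by rw [hx']; abel
    rw [this]; exact norm_sub_le _ _
  have h3 := hL t ht
  have hback : (a - κ / 2) * t ≤ ‖x'‖ - ‖x' - t • y‖ := by nlinarith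
  have hsmall : ∀ s : ℝ, 0 < s → s ≤ t → (a + κ / 2) * s ≤ ‖x' + s • y‖ - ‖x'‖ := by
    intro s hs hst
    have h4 := hNS s hs
    have h5 := norm_line x' (-y) hs.le hst
    rw [smul_neg, smul_neg, ← sub_eq_add_neg, ← sub_eq_add_neg] at h5
    have h6 : s * ((a - κ / 2) * t) ≤ s * (‖x'‖ - ‖x' - t • y‖) :=
      mul_le_mul_of_nonneg_left hback hs.le
    have h7 : t * ((a - κ / 2) * s) ≤ t * (‖x'‖ - ‖x' - s • y‖) := by nlinarith
    have h8 := le_of_mul_le_mul_left h7 ht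
    linarith
  intro s hs
  rcases le_or_gt s t with hst | hst
  · exact hsmall s hs hst
  · have h4 := hsmall t ht le_rfl
    have h5 := norm_line x' y ht.le hst.le
    have h6 : s * ((a + κ / 2) * t) ≤ s * (‖x' + t • y‖ - ‖x'‖) :=
      mul_le_mul_of_nonneg_left h4 hs.le
    have h7 : t * ((a + κ / 2) * s) ≤ t * (‖x' + s • y‖ - ‖x'‖) := by nlinarith
    exact le_of_mul_le_mul_left h7 ht

theorem quot_mono (x y : X) {t s : ℝ} (ht : 0 < t) (hts : t ≤ s) :
    (‖x + t • y‖ - ‖x‖) / t ≤ (‖x + s • y‖ - ‖x‖) / s := by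
  have hs : 0 < s := lt_of_lt_of_le ht hts
  rw [div_le_div_iff₀ ht hs]
  have := norm_line x y ht.le hts
  linarith

/-- Directions separating `A n` from a norming functional of a point of `TT A δ`. -/
theorem exists_dir (A : ℕ → Set (X →L[ℝ] ℝ)) (δ : ℝ) (x0 : X) (hx0 : x0 ∈ TT A δ)
    (ξ : X →L[ℝ] ℝ) (hξ1 : ‖ξ‖ ≤ 1) (hξ2 : ξ x0 = ‖x0‖) (n : ℕ) :
    ∃ u : X, ‖u‖ ≤ 1 ∧ ∀ a ∈ A n, a u + δ ≤ ξ u := by
  have h1 : ¬ PP A n δ x0 := hx0 n
  unfold PP at h1
  push Not at h1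
  obtain ⟨v, ε, hε, h⟩ := h1
  by_cases hv : v = 0
  · subst hv
    refine ⟨0, by simp, ?_⟩
    intro a ha
    have := h a ha
    simp at this
    linarith
  · have hvpos : 0 < ‖v‖ := norm_pos_iff.mpr hv
    refine ⟨‖v‖⁻¹ • v, ?_, ?_⟩
    · rw [norm_smul, norm_inv, norm_norm, inv_mul_cancel₀ hvpos.ne']
    · intro a ha
      have h2 := h a ha
      have h3 := le_norm_of_norm_le_one hξ1 (x0 - v)
      rw [map_sub, hξ2] at h3
      have h4 : a v + δ * ‖v‖ ≤ ξ v := by linarith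
      rw [map_smul, map_smul, smul_eq_mul, smul_eq_mul]
      have h5 := mul_le_mul_of_nonneg_left h4 (inv_nonneg.mpr hvpos.le)
      have h6 : ‖v‖⁻¹ * (a v + δ * ‖v‖) = ‖v‖⁻¹ * a v + δ := by
        field_simp
      linarith

theorem stepA [CompleteSpace X] (A : ℕ → Set (X →L[ℝ] ℝ)) (hA : Monotone A)
    (hE : ∀ ξ : X →L[ℝ] ℝ, ‖ξ‖ ≤ 1 →
      (∃ x : X, ∀ ψ : X →L[ℝ] ℝ, ‖ψ‖ ≤ 1 → ψ ≠ ξ → ψ x < ξ x) → ∃ n, ξ ∈ A n)
    (y : ℕ → X) (hy : DenseRange y) (d0 : ℝ) (hd0 : 0 < d0) (x00 : X) : x00 ∉ TT A d0 := by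
  intro hx00
  set d' : ℝ := d0 / 2 with hd'
  have hd'pos : 0 < d' := by rw [hd']; positivity
  have hd'lt : d' < d0 := by rw [hd']; linarith
  let D : Set X := {x | ∃ δ, d' < δ ∧ x ∈ TT A δ}
  let M : Set X := TT A d' ∩ closure D
  have hMG : IsGδ M := (TT_isGdelta A d').inter isClosed_closure.isGδ
  have hDM : D ⊆ M := by
    intro x hx
    refine ⟨?_, subset_closure hx⟩
    obtain ⟨δ, hδ, hxδ⟩ := hx
    exact TT_anti hδ.le hxδ
  have hx00D : x00 ∈ D := ⟨d0, hd'lt, hx00⟩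
  have hcov : M ⊆ ⋃ jk : ℕ × ℕ, NS (y jk.1) (1 / ((jk.2:ℝ) + 1)) := by
    intro x hx
    obtain ⟨j, k, hjk⟩ := cover_NS A hE y hy x (TT_anti hd'pos.le hx.1)
    exact mem_iUnion.mpr ⟨(j, k), hjk⟩
  -- Baire category argument
  obtain ⟨j, k, U, hUo, hUM, x1, hx1U, hx1D⟩ : ∃ j k : ℕ, ∃ U : Set X, IsOpen U ∧
      (∀ x ∈ M, x ∈ U → x ∈ NS (y j) (1 / ((k:ℝ) + 1))) ∧ ∃ x1, x1 ∈ U ∧ x1 ∈ D := by
    have hcs : CompleteSpace (closure M) := isClosed_closure.completeSpace_coe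
    have hG : IsGδ ((↑) ⁻¹' M : Set (closure M)) := hMG.preimage continuous_subtype_val
    have hDense : Dense ((↑) ⁻¹' M : Set (closure M)) := by
      rw [Subtype.dense_iff]
      rw [Subtype.image_preimage_coe]
      have : closure M ∩ M = M := inter_eq_right.mpr subset_closure
      rw [this]
    have hd := hG.dense_iUnion_interior_of_closed hDense
      (f := fun jk : ℕ × ℕ => ((↑) ⁻¹' (NS (y jk.1) (1 / ((jk.2:ℝ) + 1))) : Set (closure M)))
      (fun jk => (NS_closed _ _).preimage continuous_subtype_val) (by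
        intro z hz
        obtain ⟨jk, hjk⟩ := mem_iUnion.mp (hcov hz)
        exact mem_iUnion.mpr ⟨jk, hjk⟩)
    have hne : Nonempty (closure M) := ⟨⟨x00, subset_closure (hDM hx00D)⟩⟩
    obtain ⟨z, hz⟩ := hd.nonempty
    obtain ⟨⟨j, k⟩, hz'⟩ := mem_iUnion.mp hz
    obtain ⟨V, hVsub, hVo, hzV⟩ := mem_interior.mp hz'
    obtain ⟨U, hUo, rfl⟩ := isOpen_induced_iff.mp hVo
    refine ⟨j, k, U, hUo, ?_, ?_⟩
    · intro x hxM hxU
      have h1 : (⟨x, subset_closure hxM⟩ : closure M) ∈ Subtype.val ⁻¹' U := hxU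
      exact hVsub h1
    · have h1 : (z : X) ∈ closure D := by
        have h2 : closure M ⊆ closure D := closure_minimal inter_subset_right isClosed_closure
        exact h2 z.2
      obtain ⟨x1, hx1⟩ := mem_closure_iff.mp h1 U hUo hzV
      exact ⟨x1, hx1.1, hx1.2⟩
  set κ : ℝ := 1 / ((k:ℝ) + 1) with hκ
  have hκpos : 0 < κ := by rw [hκ]; positivity
  set y0 : X := y j with hy0
  -- a point with an empty cone
  obtain ⟨x0, hx0U, hx0D, t0, ht0, hcone⟩ : ∃ x0 ∈ U, x0 ∈ D ∧ ∃ t0 : ℝ, 0 < t0 ∧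
      ∀ t : ℝ, 0 < t → t < t0 → ∀ z : X, ‖z‖ ≤ κ / 4 * t → x0 + t • y0 + z ∉ D := by
    by_contra hcon
    push Not at hcon
    have hchain : ∀ i : ℕ, ∃ x, x ∈ U ∧ x ∈ D ∧
        ∀ s : ℝ, 0 < s → (-‖y0‖ + i * (κ / 2)) * s ≤ ‖x + s • y0‖ - ‖x‖ := by
      intro i
      induction i with
      | zero =>
        refine ⟨x1, hx1U, hx1D, ?_⟩
        intro s hs
        have h1 := dd_lower x1 y0 s hs
        rw [le_div_iff₀ hs] at h1
        simpa using h1
      | succ i ih =>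
        obtain ⟨x, hxU, hxD, hxL⟩ := ih
        obtain ⟨r, hr, hball⟩ := Metric.isOpen_iff.mp hUo x hxU
        have hB : 0 < ‖y0‖ + κ / 4 + 1 := by positivity
        obtain ⟨t, ht, htlt, z, hz, hxD'⟩ := hcon x hxU hxD (r / (‖y0‖ + κ / 4 + 1))
          (by positivity)
        rw [lt_div_iff₀ hB] at htlt
        have hxU' : x + t • y0 + z ∈ U := by
          apply hball
          rw [Metric.mem_ball, dist_eq_norm]
          have h1 : x + t • y0 + z - x = t • y0 + z := by abel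
          rw [h1]
          refine lt_of_le_of_lt (norm_add_le _ _) ?_
          rw [norm_smul, Real.norm_of_nonneg ht.le]
          nlinarith
        refine ⟨x + t • y0 + z, hxU', hxD', ?_⟩
        have h2 := chain_step x y0 z _ κ t ht hxL hz (hUM _ (hDM hxD') hxU')
        intro s hs
        have h3 := h2 s hs
        push_cast
        have h4 : (-‖y0‖ + (↑i + 1) * (κ / 2)) = (-‖y0‖ + ↑i * (κ / 2) + κ / 2) := by ring
        rw [h4]
        exact h3
    obtain ⟨i, hi⟩ := exists_nat_gt (2 * ‖y0‖ / (κ / 2))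
    rw [div_lt_iff₀ (by positivity)] at hi
    obtain ⟨x, -, -, hxL⟩ := hchain i
    have h1 := hxL 1 one_pos
    rw [one_smul, mul_one] at h1
    have h2 := norm_add_le x y0
    linarith
  obtain ⟨δ, hδ, hx0δ⟩ := hx0D
  obtain ⟨ξ, hξ1, hξ2, hξ3⟩ := exists_dd x0 y0
  have hu := exists_dir A δ x0 hx0δ ξ hξ1 hξ2
  set d'' : ℝ := (d' + δ) / 2 with hd''
  have hd''1 : d' < d'' := by rw [hd'']; linarith
  have hd''2 : d'' < δ := by rw [hd'']; linarith
  have hest : ∀ t : ℝ, 0 < t → t < t0 →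
      dd x0 y0 + κ / 4 * (δ - d'') ≤ (‖x0 + t • y0‖ - ‖x0‖) / t := by
    intro t ht htt
    have h1 := gain A hA (x0 + t • y0) (κ / 4 * t) (by positivity) ξ hξ1 δ d''
      (by linarith) hu (by
        intro w hw
        by_contra hcon
        push Not at hcon
        have h2 : x0 + t • y0 + (κ / 4 * t) • w ∈ D := ⟨d'', hd''1, hcon⟩
        refine hcone t ht htt _ ?_ h2
        rw [norm_smul, Real.norm_of_nonneg (by positivity)]
        have := mul_le_mul_of_nonneg_left hw (by positivity : 0 ≤ κ / 4 * t)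
        linarith)
    rw [map_add, map_smul, smul_eq_mul, hξ2, hξ3] at h1
    rw [le_div_iff₀ ht]
    nlinarith
  have hfin : dd x0 y0 + κ / 4 * (δ - d'') ≤ dd x0 y0 := by
    refine le_dd _ _ _ ?_
    intro t ht
    rcases lt_or_ge t t0 with htt | htt
    · exact hest t ht htt
    · have h1 := hest (t0 / 2) (by positivity) (by linarith)
      exact h1.trans (quot_mono x0 y0 (by positivity) (by linarith))
  have : 0 < κ / 4 * (δ - d'') := mul_pos (by positivity) (by linarith)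
  linarith

end Pool.Agent.Lib.MP_2f7009_an
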